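import Mathlib
import Pool.Agent.MP_71094f_lc.Cone.All

set_option autoImplicit false

namespace Pool.Agent.Results.MP_71094f_lc.Cones

open Pool.Agent.MP_71094f_lc Pool.Agent.MP_71094f_lc.Cone Ordinal

lemma list_fin {X : Type} (R : X → X → Prop) (hs : ∀ x y, R x y → R y x) (hi : ∀ x, ¬ R x x)
    (A : List X) (hA : A.Pairwise R) (n : ℕ) (h : n + 1 < A.length) :
    ∃ N : Finset X, N.card = n ∧ (∀ x ∈ N, ∃ y, R x y) ∧ ∀ x ∈ N, ∀ y ∈ N, x ≠ y → R x y := by
  classical
  have hnd : A.Nodup := hA.imp fun {a b} hab (h : a = b) => hi a (by rwa [← h] at hab)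
  have hc : A.toFinset.card = A.length := List.toFinset_card_of_nodup hnd
  have : Std.Symm R := ⟨hs⟩
  have hall : ∀ x ∈ A, ∀ y ∈ A, x ≠ y → R x y := fun x hx y hy hxy => hA.forall hx hy hxy
  obtain ⟨N, h1, h2⟩ := Finset.exists_subset_card_eq (s := A.toFinset) (n := n) (by omega)
  have hm : ∀ x ∈ N, x ∈ A := fun x hx => List.mem_toFinset.mp (h1 hx)
  refine ⟨N, h2, fun x hx => ?_, fun x hx y hy => hall x (hm x hx) y (hm y hy)⟩
  obtain ⟨y, a1, a2⟩ := Finset.exists_mem_ne (s := A.toFinset) (by omega) x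
  exact ⟨y, hall x (hm x hx) y (List.mem_toFinset.mp a1) a2.symm⟩

theorem result :
    ∀ α : Ordinal.{0}, α < (Cardinal.aleph 1).ord →
      ∀ c : Ordinal.{0} → Ordinal.{0} → Ordinal.{0} → Bool,
        (∃ f : Ordinal.{0} → Ordinal.{0}, StrictMonoOn f (Set.Iio α) ∧
            (∀ β, β < α → f β < (Cardinal.aleph 1).ord) ∧
            ∀ β₁ β₂ β₃ : Ordinal.{0}, β₁ < β₂ → β₂ < β₃ → β₃ < α →
              c (f β₁) (f β₂) (f β₃) = true) ∨
        (∃ δ : Ordinal.{0}, δ < (Cardinal.aleph 1).ord ∧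
          ∀ v : Ordinal.{0}, δ < v → v < (Cardinal.aleph 1).ord → ∀ n : ℕ,
            ∃ N : Finset Ordinal.{0}, N.card = n ∧
              (((∀ x ∈ N, x < v) ∧ ∀ x ∈ N, ∀ y ∈ N, x < y → c x y v = false) ∨
                ((∀ x ∈ N, v < x ∧ x < (Cardinal.aleph 1).ord) ∧
                  ∀ x ∈ N, ∀ y ∈ N, x < y → c v x y = false))) := by
  classical
  intro α hα c
  rw [or_iff_not_imp_right]
  intro hno
  let Ω := (Cardinal.aleph 1).ord.ToType
  have hΩ : OmOne Ω :=
    { wf := wellFounded_lt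
      cnt := fun a => by
        have h1 : (Set.Iio a).Countable :=
          (Cardinal.countable_iff_lt_aleph_one _).mpr (Cardinal.mk_Iio_toType_ord_lt a)
        rw [← Set.Iio_insert]
        exact h1.insert a
      unc := by
        rw [Cardinal.countable_iff_lt_aleph_one, Cardinal.mk_univ, Cardinal.mk_ord_toType]
        exact lt_irrefl _ }
  let o : Ω → Ordinal.{0} := fun x => (Ordinal.ToType.mk.symm x : Set.Iio (Cardinal.aleph 1).ord)
  have ho : StrictMono o := fun x y hxy => Ordinal.ToType.mk.symm.strictMono hxy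
  have holt : ∀ x, o x < (Cardinal.aleph 1).ord := fun x => (Ordinal.ToType.mk.symm x).2
  let Z : ℕ → Set Ω := fun n => {v | ¬ ∃ N : Finset Ordinal.{0}, N.card = n ∧
    (((∀ x ∈ N, x < o v) ∧ ∀ x ∈ N, ∀ y ∈ N, x < y → c x y (o v) = false) ∨
      ((∀ x ∈ N, o v < x ∧ x < (Cardinal.aleph 1).ord) ∧
        ∀ x ∈ N, ∀ y ∈ N, x < y → c (o v) x y = false))}
  have hZ : ∃ n, ¬ (Z n).Countable := by
    by_contra h
    push Not at h
    obtain ⟨b, hb⟩ := exists_ub_of_countable (Set.countable_iUnion h)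
    refine hno ⟨o b, holt b, fun v h1 h2 n => ?_⟩
    by_contra h3
    have e : o (Ordinal.ToType.mk ⟨v, h2⟩) = v := by simp [o]
    have := hb (Ordinal.ToType.mk ⟨v, h2⟩) (Set.mem_iUnion.mpr ⟨n, by
      change ¬ _
      rw [e]
      exact h3⟩)
    exact absurd (ho this) (by rw [e]; exact not_lt.mpr h1.le)
  obtain ⟨n, hn⟩ := hZ
  have hΩ' : OmOne (Z n) :=
    { wf := wellFounded_lt
      cnt := fun a => (hΩ.cnt a.1).preimage_of_injOn (f := Subtype.val)
        Subtype.val_injective.injOn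
      unc := fun h => hn (Set.countable_coe_iff.mp (Set.countable_univ_iff.mp h)) }
  let p : Z n → Ordinal.{0} := fun x => o x.1
  have hp : StrictMono p := fun x y h => ho h
  let B : Z n → Z n → Z n → Prop := fun x y z => x < y ∧ y < z ∧ c (p x) (p y) (p z) = false
  have hL : Lk B (n + 1) := by
    refine ⟨fun x y z h => ⟨h.1, h.2.1⟩, fun a A hA => ?_, fun a A hA => ?_⟩
    · by_contra h
      obtain ⟨N, h1, h2, h3⟩ := list_fin _ (fun _ _ => Or.symm)
        (fun x hx => by rcases hx with hx | hx <;> exact lt_irrefl _ hx.1) A hA n (not_le.mp h)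
      refine a.2 ⟨N.map ⟨p, hp.injective⟩, by simp [h1], Or.inl ⟨?_, ?_⟩⟩
      · intro x' hx'
        obtain ⟨x, hx, rfl⟩ := Finset.mem_map.mp hx'
        obtain ⟨y, hy | hy⟩ := h2 x hx
        · exact hp (hy.1.trans hy.2.1)
        · exact hp hy.2.1
      · intro x' hx' y' hy' hxy
        obtain ⟨x, hx, rfl⟩ := Finset.mem_map.mp hx'
        obtain ⟨y, hy, rfl⟩ := Finset.mem_map.mp hy'
        have hxy' : x < y := hp.lt_iff_lt.mp hxy
        rcases h3 x hx y hy hxy'.ne with h4 | h4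
        · exact h4.2.2
        · exact absurd h4.1 hxy'.not_gt
    · by_contra h
      obtain ⟨N, h1, h2, h3⟩ := list_fin (fun y z => B a y z ∨ B a z y) (fun _ _ => Or.symm)
        (fun x hx => by rcases hx with hx | hx <;> exact lt_irrefl _ hx.2.1) A
        (hA.imp Or.inl) n (not_le.mp h)
      refine a.2 ⟨N.map ⟨p, hp.injective⟩, by simp [h1], Or.inr ⟨?_, ?_⟩⟩
      · intro x' hx'
        obtain ⟨x, hx, rfl⟩ := Finset.mem_map.mp hx'
        obtain ⟨y, hy | hy⟩ := h2 x hx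
        · exact ⟨hp hy.1, holt _⟩
        · exact ⟨hp (hy.1.trans hy.2.1), holt _⟩
      · intro x' hx' y' hy' hxy
        obtain ⟨x, hx, rfl⟩ := Finset.mem_map.mp hx'
        obtain ⟨y, hy, rfl⟩ := Finset.mem_map.mp hy'
        have hxy' : x < y := hp.lt_iff_lt.mp hxy
        rcases h3 x hx y hy hxy'.ne with h4 | h4
        · exact h4.2.2
        · exact absurd h4.2.1 hxy'.not_gt
  obtain ⟨ch, e, he1, he2⟩ := exists_shape α hα
  obtain ⟨h, hm, hr⟩ := red_tree hL ch
  have hlt : ∀ β β', β < β' → β' < α → h (e β) < h (e β') := fun β β' h1 h2 =>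
    hm _ _ (he1 β (h1.trans h2).le) (he1 β' h2.le) (he2 _ _ h1 h2.le)
  refine ⟨fun β => p (h (e β)), fun β _ β' hβ' h1 => hp (hlt β β' h1 hβ'), fun β _ => holt _,
    fun β₁ β₂ β₃ h12 h23 h3 => ?_⟩
  have := hr _ _ _ (he1 β₁ (h12.trans (h23.trans h3)).le) (he1 β₂ (h23.trans h3).le)
    (he1 β₃ h3.le) (he2 _ _ h12 (h23.trans h3).le) (he2 _ _ h23 h3.le)
  by_contra h4
  exact this ⟨hlt _ _ h12 (h23.trans h3), hlt _ _ h23 h3, by simpa using h4⟩

end Pool.Agent.Results.MP_71094f_lc.Cones
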