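import Mathlib
import Pool.Agent.Mg.F71094f.Ge8325a

set_option autoImplicit false

namespace Pool.Agent.Results.MP_71094f_lc.OmegaOmega

open Pool.Agent.MP_71094f_lc Pool.Agent.MP_71094f_lc.H37 Ordinal

lemma exists_digits (n : ℕ) : ∃ e : Ordinal.{0} → List ℕ, (∀ β, (e β).length = n) ∧
    ∀ β γ, β < γ → γ < omega0 ^ (n : Ordinal.{0}) → prec (e β) (e γ) := by
  induction n with
  | zero => exact ⟨fun _ => [], fun _ => rfl, fun β γ h1 h2 => by simp at h2; simp [h2] at h1⟩
  | succ n ih =>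
    obtain ⟨e, he1, he2⟩ := ih
    have h0 : omega0 ^ (n : Ordinal.{0}) ≠ 0 := opow_ne_zero _ omega0_ne_zero
    have hd : ∀ β : Ordinal.{0}, ∃ i : ℕ, β < omega0 ^ ((n + 1 : ℕ) : Ordinal.{0}) →
        β / omega0 ^ (n : Ordinal.{0}) = i := by
      intro β
      by_cases hβ : β < omega0 ^ ((n + 1 : ℕ) : Ordinal.{0})
      · rw [Nat.cast_succ, opow_add, opow_one] at hβ
        obtain ⟨i, hi⟩ := lt_omega0.mp ((lt_mul_iff_div_lt h0).mp hβ)
        exact ⟨i, fun _ => hi⟩
      · exact ⟨0, fun h => absurd h hβ⟩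
    choose d hd using hd
    refine ⟨fun β => d β :: e (β % omega0 ^ (n : Ordinal.{0})), fun β => by simp [he1],
      fun β γ h1 h2 => ?_⟩
    have h3 : β / omega0 ^ (n : Ordinal.{0}) ≤ γ / omega0 ^ (n : Ordinal.{0}) :=
      div_le_left h1.le _
    rw [hd β (h1.trans h2), hd γ h2] at h3
    rcases (Nat.cast_le.mp h3).lt_or_eq with h4 | h4
    · exact Or.inl h4
    · refine Or.inr ⟨h4, he2 _ _ ?_ (mod_lt _ h0)⟩
      have h5 := hd β (h1.trans h2)
      rw [← div_add_mod β (omega0 ^ (n : Ordinal.{0})), ← div_add_mod γ (omega0 ^ (n : Ordinal.{0})),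
        h5, hd γ h2, h4] at h1
      exact lt_of_add_lt_add_left h1

theorem result :
    ∀ α : Ordinal.{0}, α ≤ Ordinal.omega0 ^ Ordinal.omega0 + 1 →
      ∀ c : Ordinal.{0} → Ordinal.{0} → Ordinal.{0} → Bool,
        (∃ f : Ordinal.{0} → Ordinal.{0}, StrictMonoOn f (Set.Iio α) ∧
            (∀ β, β < α → f β < (Cardinal.aleph 1).ord) ∧
            ∀ β₁ β₂ β₃ : Ordinal.{0}, β₁ < β₂ → β₂ < β₃ → β₃ < α →
              c (f β₁) (f β₂) (f β₃) = true) ∨
        (∃ a b d e : Ordinal.{0}, a < b ∧ b < d ∧ d < e ∧ e < (Cardinal.aleph 1).ord ∧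
            c a b d = false ∧ c a b e = false ∧ c a d e = false ∧ c b d e = false) := by
  classical
  intro α hα c
  rw [or_iff_not_imp_right]
  intro hno
  let Ω := (Cardinal.aleph 1).ord.ToType
  have hΩ : OmOne Ω :=
    { wf := wellFounded_lt
      cnt := fun a => by
        have h1 : (Set.Iio a).Countable :=
          (Cardinal.countable_iff_lt_aleph_one _).mpr (Cardinal.mk_Iio_toType_ord_lt a)
        rw [← Set.Iio_insert]
        exact h1.insert a
      unc := by
        rw [Cardinal.countable_iff_lt_aleph_one, Cardinal.mk_univ, Cardinal.mk_ord_toType]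
        exact lt_irrefl _ }
  have hne : Nonempty Ω := by
    by_contra h
    rw [not_nonempty_iff] at h
    exact hΩ.unc (Set.to_countable _)
  let o : Ω → Ordinal.{0} := fun x => (Ordinal.ToType.mk.symm x : Set.Iio (Cardinal.aleph 1).ord)
  have ho : StrictMono o := fun x y hxy => Ordinal.ToType.mk.symm.strictMono hxy
  have holt : ∀ x, o x < (Cardinal.aleph 1).ord := fun x => (Ordinal.ToType.mk.symm x).2
  let B : Ω → Ω → Ω → Prop := fun x y z => c (o x) (o y) (o z) = false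
  have hK : NoK4 B := fun a b d e h1 h2 h3 h4 h5 h6 h7 =>
    hno ⟨o a, o b, o d, o e, ho h1, ho h2, ho h3, holt e, h4, h5, h6, h7⟩
  obtain ⟨k, h, hk, hm, hr⟩ := red_of_noK4 hK
  choose e he1 he2 using exists_digits
  have hex : ∀ β : Ordinal.{0}, β < omega0 ^ omega0 → ∃ n : ℕ, β < omega0 ^ (n : Ordinal.{0}) := by
    intro β hβ
    obtain ⟨γ, h1, h2⟩ := (lt_opow_of_isSuccLimit omega0_ne_zero isSuccLimit_omega0).mp hβ
    obtain ⟨n, rfl⟩ := lt_omega0.mp h1
    exact ⟨n, h2⟩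
  let ad : Ordinal.{0} → List ℕ := fun β =>
    if hβ : β < omega0 ^ omega0 then Nat.find (hex β hβ) :: e (k (Nat.find (hex β hβ))) β else []
  have hv : ∀ β, Adr k (ad β) := by
    intro β
    by_cases hβ : β < omega0 ^ omega0
    · exact Or.inr ⟨_, _, he1 _ _, dif_pos hβ⟩
    · exact Or.inl (dif_neg hβ)
  have hpr : ∀ β γ, β < γ → γ < α → prec (ad β) (ad γ) := by
    intro β γ hβγ hγ
    have hγ' : γ ≤ omega0 ^ omega0 := Order.lt_add_one_iff.mp (hγ.trans_le hα)
    have hβ : β < omega0 ^ omega0 := hβγ.trans_le hγ'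
    have e1 : ad β = _ := dif_pos hβ
    by_cases h2 : γ < omega0 ^ omega0
    · have e2 : ad γ = _ := dif_pos h2
      rw [e1, e2]
      have h3 := Nat.find_spec (hex γ h2)
      rcases (Nat.find_min' (hex β hβ) (hβγ.trans h3)).lt_or_eq with h4 | h4
      · exact Or.inl h4
      · refine Or.inr ⟨h4, ?_⟩
        rw [h4]
        exact he2 _ _ _ hβγ (h3.trans_le
          (opow_le_opow_right omega0_pos (Nat.cast_le.mpr (hk _))))
    · have e2 : ad γ = [] := dif_neg h2
      rw [e1, e2]; trivial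
  refine ⟨fun β => o (h (ad β)), fun β _ γ hγ hβγ => ho (hm _ _ (hv β) (hv γ) (hpr β γ hβγ hγ)),
    fun β _ => holt _, fun β₁ β₂ β₃ h12 h23 h3 => ?_⟩
  have := hr _ _ _ (hv β₁) (hv β₂) (hv β₃) (hpr _ _ h12 (h23.trans h3)) (hpr _ _ h23 h3)
  simpa [B] using this

end Pool.Agent.Results.MP_71094f_lc.OmegaOmega
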